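import Pool.Agent.Work.MP_bf01b2_co.La.One

/-!
# The next-to-optimal hypercube contains all large binary trees

`Q_m` is the `m`-dimensional hypercube, a binary tree is a tree of maximum degree at most `3`.

For every `δ > 0` there is `n0` such that for all `n ≥ n0` every binary tree which has at most `2 ^ n`
vertices, or whose two bipartition classes have at most `(1 - δ) 2 ^ n` vertices each, is a subgraph
of `Q_{n+1}`.  The first part is the conjecture of Bhatt, Chung, Leighton and Rosenberg for all but
finitely many `n`.  The second part contains the first one (`δ = 1/4`): a bipartition class of a binary
tree with `N` vertices has at most `(2 N + 1) / 3` vertices.  As the classes of `Q_{n+1}` have `2 ^ n`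
vertices, it is optimal up to `δ`, and it is the asymptotic form of the conjecture of Havel that every
binary tree with `2 ^ m` vertices and equal classes spans `Q_m`.

Idea of the proof.  The tree is rooted and written as a prefix closed set of bit strings.  The
vertices with at least `S` descendants (`S` a large constant) form a tree with few leaves; cut it into
blocks of `H` levels, `H` constant.  The blocks that are paths are contracted to one vertex; the
contracted tree has very few vertices.  It is embedded in `Q_R × Q_M`, `R + M = n + 1`, `M` constant,
such that in the neighbourhood of every point of `Q_R` every type of vertex (the type records the
shapes of the pieces of the tree to be attached there, one of finitely many) has at most its average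
frequency up to a factor `1 + δ / 100` (random steering, fibres halved down to a constant by local
lemmas).  The coordinates of `Q_R` have syndromes in `Z_2 ^ k`, as in a Hamming code.  By Hall's theorem
every piece gets its own base point in prescribed syndrome classes.  From there on it is a
deterministic tile: in the first `2 M` levels the two children of a vertex get complementary target
bits of the label, exactly one of them changes the label, the other one toggles a fixed coordinate;
so the labels of the rest of the piece are equidistributed and independent of the start.  A long
path of a block with everything that hangs at it is a tile with two ends, which goes out from one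
end and comes back to the other one in mirrored columns that differ by one label coordinate.  The
tiles are disjoint because they occupy different syndromes; each bipartition class of the tree needs
its share of the syndromes and no more.
-/

set_option autoImplicit false

namespace Pool.Agent.Results.MP_bf01b2_co.AllLargeTrees

/-- For every `δ > 0` there is `n0` such that for all `n ≥ n0` every tree of maximum degree at most
`3` which has at most `2 ^ n` vertices, or has a proper `2`-colouring with at most `(1 - δ) 2 ^ n`
vertices in each colour, is a subgraph of `Q_{n+1}`. -/
theorem result :
    ∀ δ : ℝ, 0 < δ → ∃ n0 : ℕ, ∀ n : ℕ, n0 ≤ n →
      ∀ (V : Type) [Fintype V] [DecidableEq V] (G : SimpleGraph V) [DecidableRel G.Adj],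
        G.IsTree → (∀ v : V, G.degree v ≤ 3) →
        (Fintype.card V ≤ 2 ^ n ∨ ∃ C : G.Coloring Bool, ∀ b : Bool,
          ((Finset.univ.filter fun v => C v = b).card : ℝ) ≤ (1 - δ) * 2 ^ n) →
          ∃ f : G →g SimpleGraph.fromRel (fun x y : Fin (n + 1) → Bool => hammingDist x y = 1),
            Function.Injective f :=
  Pool.Agent.Work.MP_bf01b2_co.La.one

end Pool.Agent.Results.MP_bf01b2_co.AllLargeTrees
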